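import Pool.Agent.H80.HS.Targets

namespace Pool.Agent.H4.HS.B2
open MeasureTheory Set Pool.Agent.H80.HS
open scoped ContDiff ENNReal

/-- layer cake for functions bounded by one -/
lemma lc (φ : ℝ → ℝ≥0∞) (hm : Measurable φ) (h1 : ∀ x, φ x ≤ 1) :
    ∫⁻ x, φ x = ∫⁻ t in Ioo (0 : ℝ) 1, volume {x | ENNReal.ofReal t < φ x} := by
  have hf : ∀ x, φ x ≠ ⊤ := fun x => ne_top_of_le_ne_top ENNReal.one_ne_top (h1 x)
  have h2 := lintegral_eq_lintegral_meas_lt (volume : Measure ℝ) (f := fun x => (φ x).toReal)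
    (Filter.Eventually.of_forall fun x => ENNReal.toReal_nonneg) hm.ennreal_toReal.aemeasurable
  have h3 : ∫⁻ x, ENNReal.ofReal (φ x).toReal = ∫⁻ x, φ x :=
    lintegral_congr fun x => ENNReal.ofReal_toReal (hf x)
  rw [h3] at h2
  rw [h2, ← lintegral_indicator measurableSet_Ioi, ← lintegral_indicator measurableSet_Ioo]
  refine lintegral_congr fun t => ?_
  by_cases h0 : 0 < t
  · have e1 : {x | t < (φ x).toReal} = {x | ENNReal.ofReal t < φ x} := by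
      ext x
      exact (ENNReal.ofReal_lt_iff_lt_toReal h0.le (hf x)).symm
    rw [indicator_of_mem (show t ∈ Ioi (0 : ℝ) from h0)]
    by_cases ht : t < 1
    · rw [indicator_of_mem (show t ∈ Ioo (0 : ℝ) 1 from ⟨h0, ht⟩), e1]
    · rw [indicator_of_notMem (show t ∉ Ioo (0 : ℝ) 1 from fun h => ht h.2)]
      have e2 : {x | t < (φ x).toReal} = ∅ := by
        rw [eq_empty_iff_forall_notMem]
        intro x hx
        have h4 : t < (φ x).toReal := hx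
        have h5 : (φ x).toReal ≤ 1 := by
          have := ENNReal.toReal_mono ENNReal.one_ne_top (h1 x)
          simpa using this
        linarith
      rw [e2, measure_empty]
  · rw [indicator_of_notMem (show t ∉ Ioi (0 : ℝ) from h0),
      indicator_of_notMem (show t ∉ Ioo (0 : ℝ) 1 from fun h => h0 h.1)]

/-- the inequality of the weighted means -/
lemma amgm (l : ℝ) (h0 : 0 < l) (h1 : l < 1) (a b : ℝ≥0∞) :
    a ^ (1 - l) * b ^ l ≤ ENNReal.ofReal (1 - l) * a + ENNReal.ofReal l * b := by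
  have hl : 0 < 1 - l := by linarith
  have hc : (1 - l)⁻¹.HolderConjugate l⁻¹ := by
    rw [Real.holderConjugate_iff]
    constructor
    · exact (one_lt_inv₀ hl).2 (by linarith)
    · rw [inv_inv, inv_inv]
      ring
  have h2 := ENNReal.young_inequality (a ^ (1 - l)) (b ^ l) hc
  rw [← ENNReal.rpow_mul, ← ENNReal.rpow_mul, mul_inv_cancel₀ hl.ne', mul_inv_cancel₀ h0.ne',
    ENNReal.rpow_one, ENNReal.rpow_one, ENNReal.ofReal_inv_of_pos hl, ENNReal.ofReal_inv_of_pos h0,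
    div_eq_mul_inv, div_eq_mul_inv, inv_inv, inv_inv] at h2
  rw [mul_comm (ENNReal.ofReal (1 - l)), mul_comm (ENNReal.ofReal l)]
  exact h2

/-- the normalised case -/
lemma norm_case (hB1 : T_B1) (l : ℝ) (h0 : 0 < l) (h1 : l < 1) (f g h : ℝ → ℝ≥0∞)
    (hf : Measurable f) (hg : Measurable g) (hh : Measurable h)
    (hfgh : ∀ x y, f x ^ (1 - l) * g y ^ l ≤ h ((1 - l) * x + l * y))
    (hf1 : ∀ x, f x ≤ 1) (hg1 : ∀ x, g x ≤ 1) (hh1 : ∀ x, h x ≤ 1)
    (hf2 : ∀ r < 1, ∃ x, r < f x) (hg2 : ∀ r < 1, ∃ x, r < g x) :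
    (∫⁻ x, f x) ^ (1 - l) * (∫⁻ x, g x) ^ l ≤ ∫⁻ x, h x := by
  have hl : 0 < 1 - l := by linarith
  refine (amgm l h0 h1 _ _).trans ?_
  rw [lc f hf hf1, lc g hg hg1, lc h hh hh1, ← lintegral_const_mul' _ _ ENNReal.ofReal_ne_top,
    ← lintegral_const_mul' _ _ ENNReal.ofReal_ne_top]
  refine (le_lintegral_add _ _).trans (setLIntegral_mono' measurableSet_Ioo fun t ht => ?_)
  have ht1 : ENNReal.ofReal t < 1 := by
    rw [← ENNReal.ofReal_one]
    exact (ENNReal.ofReal_lt_ofReal_iff one_pos).2 ht.2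
  have ht0 : ENNReal.ofReal t ≠ 0 := (ENNReal.ofReal_pos.2 ht.1).ne'
  have hA : MeasurableSet {x | ENNReal.ofReal t < f x} := measurableSet_lt measurable_const hf
  have hB : MeasurableSet {x | ENNReal.ofReal t < g x} := measurableSet_lt measurable_const hg
  have h3 := hB1 ((fun x => (1 - l)⁻¹ * x) ⁻¹' {x | ENNReal.ofReal t < f x})
    ((fun x => l⁻¹ * x) ⁻¹' {x | ENNReal.ofReal t < g x}) {x | ENNReal.ofReal t < h x}
    (by
      obtain ⟨x, hx⟩ := hf2 _ ht1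
      refine ⟨(1 - l) * x, ?_⟩
      show ENNReal.ofReal t < f ((1 - l)⁻¹ * ((1 - l) * x))
      rw [inv_mul_cancel_left₀ hl.ne']
      exact hx)
    (by
      obtain ⟨x, hx⟩ := hg2 _ ht1
      refine ⟨l * x, ?_⟩
      show ENNReal.ofReal t < g (l⁻¹ * (l * x))
      rw [inv_mul_cancel_left₀ h0.ne']
      exact hx)
    (hA.preimage (by fun_prop)) (hB.preimage (by fun_prop)) (by
      intro a ha b hb
      have ha' : ENNReal.ofReal t < f ((1 - l)⁻¹ * a) := ha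
      have hb' : ENNReal.ofReal t < g (l⁻¹ * b) := hb
      show ENNReal.ofReal t < h (a + b)
      have h4 := hfgh ((1 - l)⁻¹ * a) (l⁻¹ * b)
      rw [mul_inv_cancel_left₀ hl.ne', mul_inv_cancel_left₀ h0.ne'] at h4
      refine lt_of_lt_of_le ?_ h4
      have h5 : ENNReal.ofReal t = ENNReal.ofReal t ^ (1 - l) * ENNReal.ofReal t ^ l := by
        rw [← ENNReal.rpow_add _ _ ht0 ENNReal.ofReal_ne_top, sub_add_cancel, ENNReal.rpow_one]
      rw [h5]
      exact ENNReal.mul_lt_mul (ENNReal.rpow_lt_rpow ha' hl) (ENNReal.rpow_lt_rpow hb' h0))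
  rw [Real.volume_preimage_mul_left (inv_ne_zero hl.ne'),
    Real.volume_preimage_mul_left (inv_ne_zero h0.ne'), inv_inv, inv_inv, abs_of_pos hl,
    abs_of_pos h0] at h3
  exact h3

/-- the bounded case -/
lemma bdd_case (hB1 : T_B1) (l : ℝ) (h0 : 0 < l) (h1 : l < 1) (f g h : ℝ → ℝ≥0∞)
    (hf : Measurable f) (hg : Measurable g) (hh : Measurable h)
    (hfgh : ∀ x y, f x ^ (1 - l) * g y ^ l ≤ h ((1 - l) * x + l * y))
    (hfb : (⨆ x, f x) ≠ ⊤) (hgb : (⨆ x, g x) ≠ ⊤) (hfp : (⨆ x, f x) ≠ 0)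
    (hgp : (⨆ x, g x) ≠ 0) :
    (∫⁻ x, f x) ^ (1 - l) * (∫⁻ x, g x) ^ l ≤ ∫⁻ x, h x := by
  have hl : 0 < 1 - l := by linarith
  obtain ⟨F, hF⟩ : ∃ F : ℝ≥0∞, F = ⨆ x, f x := ⟨_, rfl⟩
  obtain ⟨G, hG⟩ : ∃ G : ℝ≥0∞, G = ⨆ x, g x := ⟨_, rfl⟩
  rw [← hF] at hfb hfp
  rw [← hG] at hgb hgp
  have hfF : ∀ x, f x ≤ F := fun x => hF ▸ le_iSup f x
  have hgG : ∀ x, g x ≤ G := fun x => hG ▸ le_iSup g x
  obtain ⟨c, hc⟩ : ∃ c : ℝ≥0∞, c = F ^ (1 - l) * G ^ l := ⟨_, rfl⟩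
  have hF1 : F ^ (1 - l) ≠ 0 := by
    rw [Ne, ENNReal.rpow_eq_zero_iff_of_pos hl]
    exact hfp
  have hG1 : G ^ l ≠ 0 := by
    rw [Ne, ENNReal.rpow_eq_zero_iff_of_pos h0]
    exact hgp
  have hF2 : F ^ (1 - l) ≠ ⊤ := ENNReal.rpow_ne_top_of_nonneg hl.le hfb
  have hG2 : G ^ l ≠ ⊤ := ENNReal.rpow_ne_top_of_nonneg h0.le hgb
  have hc0 : c ≠ 0 := by
    rw [hc]
    exact mul_ne_zero hF1 hG1
  have hct : c ≠ ⊤ := by
    rw [hc]
    exact ENNReal.mul_ne_top hF2 hG2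
  have hinv : c⁻¹ = (F⁻¹) ^ (1 - l) * (G⁻¹) ^ l := by
    rw [hc, ENNReal.mul_inv (Or.inl hF1) (Or.inl hF2), ENNReal.inv_rpow, ENNReal.inv_rpow]
  have hsc : ∀ a b : ℝ≥0∞, (F⁻¹ * a) ^ (1 - l) * (G⁻¹ * b) ^ l =
      c⁻¹ * (a ^ (1 - l) * b ^ l) := by
    intro a b
    rw [ENNReal.mul_rpow_of_nonneg _ _ hl.le, ENNReal.mul_rpow_of_nonneg _ _ h0.le, hinv]
    ring
  have hf1 : ∀ x, F⁻¹ * f x ≤ 1 := fun x => by
    calc F⁻¹ * f x ≤ F⁻¹ * F := mul_le_mul_right (hfF x) _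
      _ = 1 := ENNReal.inv_mul_cancel hfp hfb
  have hg1 : ∀ x, G⁻¹ * g x ≤ 1 := fun x => by
    calc G⁻¹ * g x ≤ G⁻¹ * G := mul_le_mul_right (hgG x) _
      _ = 1 := ENNReal.inv_mul_cancel hgp hgb
  have hn := norm_case hB1 l h0 h1 (fun x => F⁻¹ * f x) (fun x => G⁻¹ * g x)
    (fun x => min (c⁻¹ * h x) 1) (hf.const_mul _) (hg.const_mul _)
    ((hh.const_mul _).min measurable_const) (by
      intro x y
      refine le_min ?_ ?_
      · rw [hsc]
        exact mul_le_mul_right (hfgh x y) _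
      · calc (F⁻¹ * f x) ^ (1 - l) * (G⁻¹ * g y) ^ l ≤ 1 ^ (1 - l) * 1 ^ l :=
              mul_le_mul' (ENNReal.rpow_le_rpow (hf1 x) hl.le)
                (ENNReal.rpow_le_rpow (hg1 y) h0.le)
          _ = 1 := by simp)
    hf1 hg1 (fun x => min_le_right _ _) (by
      intro r hr
      have h2 : F * r < F := by
        calc F * r < F * 1 := (ENNReal.mul_lt_mul_iff_right hfp hfb).2 hr
          _ = F := mul_one F
      rw [hF] at h2
      obtain ⟨x, hx⟩ := lt_iSup_iff.1 h2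
      rw [← hF] at hx
      refine ⟨x, ?_⟩
      calc r = F⁻¹ * (F * r) := by
            rw [← mul_assoc, ENNReal.inv_mul_cancel hfp hfb, one_mul]
        _ < F⁻¹ * f x := (ENNReal.mul_lt_mul_iff_right (ENNReal.inv_ne_zero.2 hfb)
            (ENNReal.inv_ne_top.2 hfp)).2 hx)
    (by
      intro r hr
      have h2 : G * r < G := by
        calc G * r < G * 1 := (ENNReal.mul_lt_mul_iff_right hgp hgb).2 hr
          _ = G := mul_one G
      rw [hG] at h2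
      obtain ⟨x, hx⟩ := lt_iSup_iff.1 h2
      rw [← hG] at hx
      refine ⟨x, ?_⟩
      calc r = G⁻¹ * (G * r) := by
            rw [← mul_assoc, ENNReal.inv_mul_cancel hgp hgb, one_mul]
        _ < G⁻¹ * g x := (ENNReal.mul_lt_mul_iff_right (ENNReal.inv_ne_zero.2 hgb)
            (ENNReal.inv_ne_top.2 hgp)).2 hx)
  rw [lintegral_const_mul _ hf, lintegral_const_mul _ hg, hsc] at hn
  have h2 : ∫⁻ x, min (c⁻¹ * h x) 1 ≤ c⁻¹ * ∫⁻ x, h x := by
    rw [← lintegral_const_mul _ hh]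
    exact lintegral_mono fun x => min_le_left _ _
  exact (ENNReal.mul_le_mul_iff_right (ENNReal.inv_ne_zero.2 hct)
    (ENNReal.inv_ne_top.2 hc0)).1 (hn.trans h2)

theorem b2 : T_B1 → T_B2 := by
  intro hB1 l h0 h1 f g h hf hg hh hfgh
  have hl : 0 < 1 - l := by linarith
  by_cases hf0 : ∫⁻ x, f x = 0
  · rw [hf0, ENNReal.zero_rpow_of_pos hl, zero_mul]
    exact zero_le
  by_cases hg0 : ∫⁻ x, g x = 0
  · rw [hg0, ENNReal.zero_rpow_of_pos h0, mul_zero]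
    exact zero_le
  obtain ⟨x0, hx0⟩ : ∃ x, f x ≠ 0 := by
    by_contra hcon
    push Not at hcon
    exact hf0 (by simp [hcon])
  obtain ⟨y0, hy0⟩ : ∃ x, g x ≠ 0 := by
    by_contra hcon
    push Not at hcon
    exact hg0 (by simp [hcon])
  have hlim : ∀ φ : ℝ → ℝ≥0∞, Measurable φ → Filter.Tendsto
      (fun N : ℕ => ∫⁻ x, min (φ x) (N : ℝ≥0∞)) Filter.atTop (nhds (∫⁻ x, φ x)) := by
    intro φ hφ
    refine lintegral_tendsto_of_tendsto_of_monotone
      (fun N => (hφ.min measurable_const).aemeasurable) ?_ ?_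
    · refine Filter.Eventually.of_forall fun x a b hab => ?_
      exact min_le_min le_rfl (by exact_mod_cast hab)
    · refine Filter.Eventually.of_forall fun x => ?_
      have h2 : Filter.Tendsto (fun N : ℕ => min (φ x) (N : ℝ≥0∞)) Filter.atTop
          (nhds (min (φ x) ⊤)) :=
        tendsto_const_nhds.min ENNReal.tendsto_nat_nhds_top
      rwa [min_top_right] at h2
  have hprod : Filter.Tendsto (fun N : ℕ => (∫⁻ x, min (f x) (N : ℝ≥0∞)) ^ (1 - l) *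
      (∫⁻ x, min (g x) (N : ℝ≥0∞)) ^ l) Filter.atTop
      (nhds ((∫⁻ x, f x) ^ (1 - l) * (∫⁻ x, g x) ^ l)) := by
    refine ENNReal.Tendsto.mul ?_ (Or.inl ?_) ?_ (Or.inl ?_)
    · exact (ENNReal.continuous_rpow_const.tendsto _).comp (hlim f hf)
    · rw [Ne, ENNReal.rpow_eq_zero_iff_of_pos hl]
      exact hf0
    · exact (ENNReal.continuous_rpow_const.tendsto _).comp (hlim g hg)
    · rw [Ne, ENNReal.rpow_eq_zero_iff_of_pos h0]
      exact hg0
  refine le_of_tendsto hprod ?_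
  filter_upwards [Filter.eventually_ge_atTop 1] with N hN
  have hN1 : (1 : ℝ≥0∞) ≤ (N : ℝ≥0∞) := by exact_mod_cast hN
  have hNt : (N : ℝ≥0∞) ≠ ⊤ := ENNReal.natCast_ne_top N
  have hsup : ∀ φ : ℝ → ℝ≥0∞, (⨆ x, min (φ x) (N : ℝ≥0∞)) ≠ ⊤ := fun φ =>
    ne_top_of_le_ne_top hNt (iSup_le fun x => min_le_right _ _)
  have hpos : ∀ (φ : ℝ → ℝ≥0∞) (x : ℝ), φ x ≠ 0 → (⨆ x, min (φ x) (N : ℝ≥0∞)) ≠ 0 := by
    intro φ x hx hcon
    have h2 : min (φ x) (N : ℝ≥0∞) ≤ 0 := hcon ▸ le_iSup (fun x => min (φ x) (N : ℝ≥0∞)) x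
    rcases min_le_iff.1 h2 with h3 | h3
    · exact hx (le_zero_iff.1 h3)
    · exact absurd (hN1.trans h3) (by simp)
  refine bdd_case hB1 l h0 h1 _ _ h (hf.min measurable_const) (hg.min measurable_const) hh
    (fun x y => ?_) (hsup f) (hsup g) (hpos f x0 hx0) (hpos g y0 hy0)
  exact (mul_le_mul' (ENNReal.rpow_le_rpow (min_le_left _ _) hl.le)
    (ENNReal.rpow_le_rpow (min_le_left _ _) h0.le)).trans (hfgh x y)

end Pool.Agent.H4.HS.B2
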