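import Pool.Agent.H80.HS.Targets

namespace Pool.Agent.H4.HS.C2
open MeasureTheory Set Pool.Agent.H80.HS
open scoped ContDiff ENNReal

theorem c2 : T_C1 → T_L3 → T_C2 := by
  intro hC1 hL3 F _ _ n hn p hp1 hpQ u hu hc
  have hn1 : (1 : ℝ) ≤ n := by exact_mod_cast hn
  obtain ⟨Q, hQ⟩ : ∃ Q : ℝ, Q = 2 * (n : ℝ) + 2 := ⟨_, rfl⟩
  have hQ1 : 2 * (n : ℝ) + 1 = Q - 1 := by rw [hQ]; ring
  have hQ2 : (0 : ℝ) < Q - 1 := by rw [hQ]; linarith
  have hQ0 : (0 : ℝ) < Q := by linarith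
  have hQp : 0 < Q - p := by rw [hQ]; linarith
  have hp0 : 0 < p := by linarith
  have hp2 : 0 < p - 1 := by linarith
  rw [← hQ]
  obtain ⟨γ, hγ⟩ : ∃ γ : ℝ, γ = p * (Q - 1) / (Q - p) := ⟨_, rfl⟩
  have hγ1 : 1 < γ := by
    rw [hγ, lt_div_iff₀ hQp]
    nlinarith
  have hu1 : ContDiff ℝ 1 u := hu.of_le (by exact_mod_cast le_top)
  obtain ⟨h1, h2, h3⟩ := hC1 F n u γ hγ1 hu1 hc
  have h4 := hL3 n hn _ h1 h2 (fun q => by positivity)
  have hCC : 0 < CC n := CC_pos hn
  rw [← hQ, hQ1] at h4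
  -- the powers
  have e1 : ∀ q : H n, (‖u q‖ ^ γ) ^ (Q / (Q - 1)) = ‖u q‖ ^ (Q * p / (Q - p)) := by
    intro q
    rw [← Real.rpow_mul (norm_nonneg _)]
    congr 1
    rw [hγ]
    field_simp
  simp only [e1] at h4
  -- the second factor
  have hcont : Continuous (fun q : H n => ‖u q‖ ^ (γ - 1)) :=
    hu.continuous.norm.rpow_const fun _ => Or.inr (by linarith)
  have hcomp : HasCompactSupport (fun q : H n => ‖u q‖ ^ (γ - 1)) := by
    refine HasCompactSupport.intro hc fun q hq => ?_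
    rw [image_eq_zero_of_notMem_tsupport hq, norm_zero]
    exact Real.zero_rpow (by linarith)
  have hgc := continuous_grad hu1
  have hgs := hasCompactSupport_grad hc
  have h5 : ∫ q, grad (fun q => ‖u q‖ ^ γ) q ≤ γ * ∫ q : H n, ‖u q‖ ^ (γ - 1) * grad u q := by
    rw [← integral_const_mul]
    refine integral_mono (integrable_grad h1 h2) ?_ fun q => ?_
    · exact ((hcont.mul hgc).integrable_of_hasCompactSupport (hcomp.mul_right)).const_mul γ
    · have := h3 q
      simp only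
      rw [← mul_assoc]
      exact this
  -- Hoelder
  obtain ⟨p', hp'⟩ : ∃ p' : ℝ, p' = p / (p - 1) := ⟨_, rfl⟩
  have hconj : p'.HolderConjugate p := by
    rw [Real.holderConjugate_iff]
    constructor
    · rw [hp', lt_div_iff₀ hp2]
      linarith
    · rw [hp']
      field_simp
      ring
  have h6 := integral_mul_le_Lp_mul_Lq_of_nonneg (μ := (volume : Measure (H n))) hconj
    (f := fun q : H n => ‖u q‖ ^ (γ - 1)) (g := grad u)
    (Filter.Eventually.of_forall fun q => by positivity)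
    (Filter.Eventually.of_forall fun q => grad_nonneg u q)
    (hcont.memLp_of_hasCompactSupport hcomp) (hgc.memLp_of_hasCompactSupport hgs)
  have e2 : ∀ q : H n, (‖u q‖ ^ (γ - 1)) ^ p' = ‖u q‖ ^ (Q * p / (Q - p)) := by
    intro q
    rw [← Real.rpow_mul (norm_nonneg _)]
    congr 1
    rw [hγ, hp']
    field_simp
    ring
  simp only [e2] at h6
  obtain ⟨I, hI⟩ : ∃ I : ℝ, I = ∫ q : H n, ‖u q‖ ^ (Q * p / (Q - p)) := ⟨_, rfl⟩
  obtain ⟨G, hG⟩ : ∃ G : ℝ, G = ∫ q : H n, grad u q ^ p := ⟨_, rfl⟩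
  rw [← hI] at h4 h6 ⊢
  rw [← hG] at h6 ⊢
  have hI0 : 0 ≤ I := by
    rw [hI]
    exact integral_nonneg fun q => by positivity
  have hG0 : 0 ≤ G := by
    rw [hG]
    exact integral_nonneg fun q => Real.rpow_nonneg (grad_nonneg u q) p
  have hc0 : 0 ≤ Q * p / (Q - p) * CC n := by positivity
  rcases hI0.eq_or_lt with hI1 | hI1
  · rw [← hI1, Real.zero_rpow (by positivity)]
    positivity
  · have h7 : I ^ ((Q - 1) / Q) ≤ (Q * p / (Q - p) * CC n) * (I ^ (1 / p') * G ^ (1 / p)) := by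
      calc I ^ ((Q - 1) / Q) ≤ Q / (Q - 1) * CC n * ∫ q, grad (fun q => ‖u q‖ ^ γ) q := h4
        _ ≤ Q / (Q - 1) * CC n * (γ * (I ^ (1 / p') * G ^ (1 / p))) := by
            gcongr
            exact h5.trans (by gcongr)
        _ = (Q * p / (Q - p) * CC n) * (I ^ (1 / p') * G ^ (1 / p)) := by
            rw [hγ]
            field_simp
    have h8 : I ^ ((Q - 1) / Q) = I ^ (1 / p') * I ^ ((Q - p) / Q / p) := by
      rw [← Real.rpow_add hI1]
      congr 1
      rw [hp']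
      field_simp
      ring
    have hI2 : 0 < I ^ (1 / p') := Real.rpow_pos_of_pos hI1 _
    have h9 : I ^ ((Q - p) / Q / p) ≤ (Q * p / (Q - p) * CC n) * G ^ (1 / p) := by
      refine le_of_mul_le_mul_left ?_ hI2
      rw [← h8]
      calc _ ≤ _ := h7
        _ = _ := by ring
    have h10 := Real.rpow_le_rpow (by positivity) h9 hp0.le
    rw [← Real.rpow_mul hI0, div_mul_cancel₀ _ hp0.ne', Real.mul_rpow hc0 (by positivity),
      ← Real.rpow_mul hG0, one_div, inv_mul_cancel₀ hp0.ne', Real.rpow_one] at h10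
    exact h10

end Pool.Agent.H4.HS.C2
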