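import Pool.Agent.H80.HS.Targets

namespace Pool.Agent.H4.HS.L3
open MeasureTheory Set Pool.Agent.H80.HS
open scoped ContDiff ENNReal

/-- the inequality with a parameter -/
lemma key (hL1 : T_L1) (hL2 : T_L2) (n : ℕ) (hn : 1 ≤ n) (u : H n → ℝ) (hu : ContDiff ℝ 1 u)
    (hc : HasCompactSupport u) (h0 : ∀ p, 0 ≤ u p) (Q r S N D : ℝ) (hQ : Q = 2 * (n : ℝ) + 2)
    (hr : r = Q / (Q - 1)) (hS : S = ∫ p, u p ^ r) (hN : N = (volume (tsupport u)).toReal)
    (hD : D = ∫ p, grad u p) (ε : ℝ) (hε : 0 < ε) :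
    S ≤ r * (N * ε ^ (r - 1) * ε + CC n * (S ^ (1 / Q) + ε ^ (r - 1) * N ^ (1 / Q)) * D) := by
  have hn1 : (1 : ℝ) ≤ n := by exact_mod_cast hn
  have hQ4 : (4 : ℝ) ≤ Q := by rw [hQ]; linarith
  have hQ0 : (0 : ℝ) < Q := by linarith
  have hQ1 : (0 : ℝ) < Q - 1 := by linarith
  have hr0 : 0 < r := by rw [hr]; positivity
  have hr1 : r - 1 = 1 / (Q - 1) := by
    rw [hr]
    field_simp
    ring
  have hr2 : 0 < r - 1 := by rw [hr1]; positivity
  have hr3 : r - 1 ≤ 1 := by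
    rw [hr1, div_le_one hQ1]
    linarith
  have hr4 : r * (1 / Q) = r - 1 := by
    rw [hr1, hr]
    field_simp
  have hCC : 0 < CC n := CC_pos hn
  have hcont : Continuous (fun p => u p ^ r) :=
    hu.continuous.rpow_const fun _ => Or.inr hr0.le
  have hcomp : HasCompactSupport (fun p => u p ^ r) := by
    refine HasCompactSupport.intro hc fun q hq => ?_
    rw [image_eq_zero_of_notMem_tsupport hq]
    exact Real.zero_rpow hr0.ne'
  have hint : Integrable (fun p => u p ^ r) := hcont.integrable_of_hasCompactSupport hcomp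
  have hS0 : 0 ≤ S := by
    rw [hS]
    exact integral_nonneg fun q => Real.rpow_nonneg (h0 q) r
  have hN0 : 0 ≤ N := by
    rw [hN]
    exact ENNReal.toReal_nonneg
  have hD0 : 0 ≤ D := by
    rw [hD]
    exact integral_nonneg fun q => grad_nonneg u q
  have hfin : volume (tsupport u) ≠ ⊤ := hc.measure_ne_top
  have hsub : ∀ b : ℝ, 0 < b → {p | b ≤ u p} ⊆ tsupport u := by
    intro b hb p hp
    refine subset_tsupport u ?_
    rw [Function.mem_support]
    have : b ≤ u p := hp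
    linarith
  have hsub2 : ∀ b : ℝ, 0 < b → {p | b < u p} ⊆ tsupport u := by
    intro b hb p hp
    have h1 : b < u p := hp
    have h2 : p ∈ {p | b ≤ u p} := h1.le
    exact hsub b hb h2
  have hV : ∀ b : ℝ, 0 < b → volume {p | b ≤ u p} ≤ ENNReal.ofReal N := by
    intro b hb
    rw [hN, ENNReal.ofReal_toReal hfin]
    exact measure_mono (hsub b hb)
  -- Chebyshev
  have hCh : ∀ τ : ℝ, 0 < τ → τ ^ r * (volume {p | τ < u p}).toReal ≤ S := by
    intro τ hτ
    have h1 := mul_meas_ge_le_integral_of_nonneg (μ := (volume : Measure (H n)))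
      (f := fun p => u p ^ r)
      (Filter.Eventually.of_forall fun q => Real.rpow_nonneg (h0 q) r) hint (τ ^ r)
    rw [← hS] at h1
    refine le_trans ?_ h1
    refine mul_le_mul_of_nonneg_left ?_ (by positivity)
    refine ENNReal.toReal_mono ?_ (measure_mono fun p hp => ?_)
    · refine ne_top_of_le_ne_top hfin (measure_mono fun p hp => ?_)
      refine subset_tsupport u ?_
      rw [Function.mem_support]
      intro h2
      have h3 : τ ^ r ≤ u p ^ r := hp
      rw [h2, Real.zero_rpow hr0.ne'] at h3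
      have : 0 < τ ^ r := by positivity
      linarith
    · have h1 : τ < u p := hp
      exact Real.rpow_le_rpow hτ.le h1.le hr0.le
  -- the bound for one level
  have hlev : ∀ τ : ℝ, 0 < τ → volume {p | τ + ε ≤ u p} * ENNReal.ofReal ((τ + ε) ^ (r - 1)) ≤
      ENNReal.ofReal (CC n * (S ^ (1 / Q) + ε ^ (r - 1) * N ^ (1 / Q))) *
        ENNReal.ofReal (∫ p, grad (fun q : H n => Real.smoothTransition ((u q - τ) / ε)) p) := by
    intro τ hτ
    have hf1 : volume {p | τ + ε ≤ u p} ≠ ⊤ :=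
      ne_top_of_le_ne_top hfin (measure_mono (hsub _ (by linarith)))
    rw [← ENNReal.ofReal_toReal hf1, ← ENNReal.ofReal_mul ENNReal.toReal_nonneg,
      ← ENNReal.ofReal_mul (by positivity)]
    refine ENNReal.ofReal_le_ofReal ?_
    have h1 := hL2 n hn u ε τ hu hc h0 hε hτ
    rw [← hQ] at h1
    obtain ⟨G, hG⟩ : ∃ G : ℝ, G = ∫ p, grad (fun q : H n =>
      Real.smoothTransition ((u q - τ) / ε)) p := ⟨_, rfl⟩
    obtain ⟨W, hW⟩ : ∃ W : ℝ, W = (volume {p | τ < u p}).toReal := ⟨_, rfl⟩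
    have hG0 : 0 ≤ G := by
      rw [hG]
      exact integral_nonneg fun q => grad_nonneg _ q
    have hW0 : 0 ≤ W := by
      rw [hW]
      exact ENNReal.toReal_nonneg
    have hWN : W ≤ N := by
      rw [hW, hN]
      exact ENNReal.toReal_mono hfin (measure_mono (hsub2 τ hτ))
    have hWS := hCh τ hτ
    rw [← hW] at hWS h1
    rw [← hG] at h1 ⊢
    have h2 : (τ + ε) ^ (r - 1) ≤ τ ^ (r - 1) + ε ^ (r - 1) :=
      Real.rpow_add_le_add_rpow hτ.le hε.le hr2.le hr3
    have h3 : τ ^ (r - 1) * W ^ (1 / Q) ≤ S ^ (1 / Q) := by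
      rw [← hr4, Real.rpow_mul hτ.le, ← Real.mul_rpow (by positivity) hW0]
      exact Real.rpow_le_rpow (by positivity) hWS (by positivity)
    have h4 : W ^ (1 / Q) ≤ N ^ (1 / Q) := Real.rpow_le_rpow hW0 hWN (by positivity)
    have h5 : 0 ≤ ε ^ (r - 1) := by positivity
    calc (volume {p | τ + ε ≤ u p}).toReal * (τ + ε) ^ (r - 1)
        ≤ (CC n * G * W ^ (1 / Q)) * (τ ^ (r - 1) + ε ^ (r - 1)) := by
          exact mul_le_mul h1 h2 (by positivity) (by positivity)
      _ = (CC n * G) * (τ ^ (r - 1) * W ^ (1 / Q) + ε ^ (r - 1) * W ^ (1 / Q)) := by ring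
      _ ≤ (CC n * G) * (S ^ (1 / Q) + ε ^ (r - 1) * N ^ (1 / Q)) := by
          refine mul_le_mul_of_nonneg_left ?_ (by positivity)
          exact add_le_add h3 (mul_le_mul_of_nonneg_left h4 h5)
      _ = _ := by ring
  -- layer cake
  have hlc := lintegral_rpow_eq_lintegral_meas_le_mul (volume : Measure (H n))
    (f := u) (Filter.Eventually.of_forall h0) hu.continuous.measurable.aemeasurable hr0
  have hSe : ENNReal.ofReal S = ∫⁻ p, ENNReal.ofReal (u p ^ r) := by
    rw [hS]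
    exact ofReal_integral_eq_lintegral_ofReal hint
      (Filter.Eventually.of_forall fun q => Real.rpow_nonneg (h0 q) r)
  rw [← hSe] at hlc
  -- the first part
  have hp1 : ∫⁻ b in Ioc 0 ε, volume {p | b ≤ u p} * ENNReal.ofReal (b ^ (r - 1)) ≤
      ENNReal.ofReal (N * ε ^ (r - 1) * ε) := by
    calc ∫⁻ b in Ioc 0 ε, volume {p | b ≤ u p} * ENNReal.ofReal (b ^ (r - 1))
        ≤ ∫⁻ b in Ioc 0 ε, ENNReal.ofReal N * ENNReal.ofReal (ε ^ (r - 1)) := by
          refine setLIntegral_mono' measurableSet_Ioc fun b hb => ?_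
          refine mul_le_mul' (hV b hb.1) (ENNReal.ofReal_le_ofReal ?_)
          exact Real.rpow_le_rpow hb.1.le hb.2 hr2.le
      _ = ENNReal.ofReal (N * ε ^ (r - 1) * ε) := by
          rw [setLIntegral_const, Real.volume_Ioc, sub_zero, ENNReal.ofReal_mul (by positivity),
            ENNReal.ofReal_mul hN0]
  -- the second part
  have hp2 : ∫⁻ b in Ioi ε, volume {p | b ≤ u p} * ENNReal.ofReal (b ^ (r - 1)) ≤
      ENNReal.ofReal (CC n * (S ^ (1 / Q) + ε ^ (r - 1) * N ^ (1 / Q)) * D) := by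
    have ht : ∫⁻ b in Ioi ε, volume {p | b ≤ u p} * ENNReal.ofReal (b ^ (r - 1)) =
        ∫⁻ τ in Ioi (0 : ℝ), volume {p | τ + ε ≤ u p} * ENNReal.ofReal ((τ + ε) ^ (r - 1)) := by
      rw [← lintegral_indicator measurableSet_Ioi, ← lintegral_indicator measurableSet_Ioi,
        ← lintegral_add_right_eq_self _ ε]
      refine lintegral_congr fun τ => ?_
      by_cases hτ : 0 < τ
      · rw [indicator_of_mem (show τ + ε ∈ Ioi ε from by simpa using hτ),
          indicator_of_mem (show τ ∈ Ioi (0 : ℝ) from hτ)]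
      · rw [indicator_of_notMem (show τ + ε ∉ Ioi ε from by simpa using hτ),
          indicator_of_notMem (show τ ∉ Ioi (0 : ℝ) from hτ)]
    rw [ht]
    calc _ ≤ ∫⁻ τ in Ioi (0 : ℝ), ENNReal.ofReal (CC n * (S ^ (1 / Q) + ε ^ (r - 1) *
          N ^ (1 / Q))) * ENNReal.ofReal (∫ p, grad (fun q : H n =>
            Real.smoothTransition ((u q - τ) / ε)) p) :=
          setLIntegral_mono' measurableSet_Ioi fun τ hτ => hlev τ hτ
      _ = ENNReal.ofReal (CC n * (S ^ (1 / Q) + ε ^ (r - 1) * N ^ (1 / Q))) *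
          ∫⁻ τ in Ioi (0 : ℝ), ENNReal.ofReal (∫ p, grad (fun q : H n =>
            Real.smoothTransition ((u q - τ) / ε)) p) :=
          lintegral_const_mul' _ _ ENNReal.ofReal_ne_top
      _ ≤ ENNReal.ofReal (CC n * (S ^ (1 / Q) + ε ^ (r - 1) * N ^ (1 / Q))) *
          ENNReal.ofReal D := by
          rw [hD]
          exact mul_le_mul_right (hL1 n u ε hu hc h0 hε) _
      _ = _ := by
          rw [← ENNReal.ofReal_mul (by positivity)]
  have hall : ENNReal.ofReal S ≤ ENNReal.ofReal (r * (N * ε ^ (r - 1) * ε +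
      CC n * (S ^ (1 / Q) + ε ^ (r - 1) * N ^ (1 / Q)) * D)) := by
    rw [hlc, ← Ioc_union_Ioi_eq_Ioi hε.le, ENNReal.ofReal_mul hr0.le,
      ENNReal.ofReal_add (by positivity) (by positivity)]
    exact mul_le_mul_right ((lintegral_union_le _ _ _).trans (add_le_add hp1 hp2)) _
  exact (ENNReal.ofReal_le_ofReal_iff (by positivity)).1 hall

theorem l3 : T_L1 → T_L2 → T_L3 := by
  intro hL1 hL2 n hn u hu hc h0
  have hn1 : (1 : ℝ) ≤ n := by exact_mod_cast hn
  obtain ⟨Q, hQ⟩ : ∃ Q : ℝ, Q = 2 * (n : ℝ) + 2 := ⟨_, rfl⟩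
  have hQQ : 2 * (n : ℝ) + 1 = Q - 1 := by rw [hQ]; ring
  obtain ⟨r, hr⟩ : ∃ r : ℝ, r = Q / (Q - 1) := ⟨_, rfl⟩
  obtain ⟨S, hS⟩ : ∃ S : ℝ, S = ∫ p, u p ^ r := ⟨_, rfl⟩
  obtain ⟨N, hN⟩ : ∃ N : ℝ, N = (volume (tsupport u)).toReal := ⟨_, rfl⟩
  obtain ⟨D, hD⟩ : ∃ D : ℝ, D = ∫ p, grad u p := ⟨_, rfl⟩
  have hk := key hL1 hL2 n hn u hu hc h0 Q r S N D hQ hr hS hN hD
  rw [hQQ, ← hQ, ← hr, ← hS, ← hD]
  have hQ4 : (4 : ℝ) ≤ Q := by rw [hQ]; linarith
  have hQ0 : (0 : ℝ) < Q := by linarith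
  have hQ1 : (0 : ℝ) < Q - 1 := by linarith
  have hr0 : 0 < r := by rw [hr]; positivity
  have hr1 : r - 1 = 1 / (Q - 1) := by
    rw [hr]
    field_simp
    ring
  have hr2 : 0 < r - 1 := by rw [hr1]; positivity
  have hCC : 0 < CC n := CC_pos hn
  have hS0 : 0 ≤ S := by
    rw [hS]
    exact integral_nonneg fun q => Real.rpow_nonneg (h0 q) r
  have hD0 : 0 ≤ D := by
    rw [hD]
    exact integral_nonneg fun q => grad_nonneg u q
  have hlim : S ≤ r * (N * 0 ^ (r - 1) * 0 + CC n * (S ^ (1 / Q) +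
      0 ^ (r - 1) * N ^ (1 / Q)) * D) := by
    have hc1 : Continuous (fun ε : ℝ => ε ^ (r - 1)) := Real.continuous_rpow_const hr2.le
    have hc2 : Continuous (fun ε : ℝ => r * (N * ε ^ (r - 1) * ε + CC n * (S ^ (1 / Q) +
        ε ^ (r - 1) * N ^ (1 / Q)) * D)) := by
      fun_prop
    have h1 : Filter.Tendsto (fun ε : ℝ => r * (N * ε ^ (r - 1) * ε + CC n * (S ^ (1 / Q) +
        ε ^ (r - 1) * N ^ (1 / Q)) * D)) (nhdsWithin 0 (Ioi 0)) (nhds _) :=
      (hc2.tendsto 0).mono_left nhdsWithin_le_nhds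
    refine ge_of_tendsto h1 ?_
    filter_upwards [self_mem_nhdsWithin] with ε hε
    exact hk ε hε
  rw [Real.zero_rpow hr2.ne'] at hlim
  have hfin : S ≤ (r * CC n * D) * S ^ (1 / Q) := by
    calc S ≤ _ := hlim
      _ = _ := by ring
  rcases hS0.eq_or_lt with h1 | h1
  · rw [← h1, Real.zero_rpow (by positivity)]
    positivity
  · have h2 : 0 < S ^ (1 / Q) := Real.rpow_pos_of_pos h1 _
    refine le_of_mul_le_mul_right ?_ h2
    rw [← Real.rpow_add h1]
    have h3 : (Q - 1) / Q + 1 / Q = 1 := by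
      field_simp
      ring
    rw [h3, Real.rpow_one]
    exact hfin

end Pool.Agent.H4.HS.L3
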