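import Pool.Agent.H80.HS.Targets

namespace Pool.Agent.H4.HS.G1
open MeasureTheory Set Pool.Agent.H80.HS
open scoped ContDiff ENNReal

lemma gauss (n : ℕ) (b : ℝ) (hb : 0 < b) :
    Integrable (fun x : V n => Real.exp (-b * ‖x‖ ^ 2)) := by
  by_contra h
  have h1 := GaussianFourier.integral_rexp_neg_mul_sq_norm (V := V n) hb
  rw [integral_undef h] at h1
  have h2 : 0 < (Real.pi / b) ^ ((Module.finrank ℝ (V n) : ℝ) / 2) := by
    have := Real.pi_pos
    positivity
  linarith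

lemma dom (n : ℕ) (b : ℝ) (hb : 0 < b) (G : ℝ → ℝ) (hG : Continuous G)
    (hc : HasCompactSupport G) :
    Integrable (fun z : H n => Real.exp (-b * (‖z.1‖ ^ 2 + ‖z.2.1‖ ^ 2)) * G z.2.2) := by
  have h0 : Integrable G volume := hG.integrable_of_hasCompactSupport hc
  have h1 := (gauss n b hb).mul_prod ((gauss n b hb).mul_prod h0)
  refine h1.congr (Filter.Eventually.of_forall fun z => ?_)
  simp only
  rw [← mul_assoc, ← Real.exp_add]
  congr 2
  ring

lemma deriv_st_lt {x : ℝ} (h : x < 0) : deriv Real.smoothTransition x = 0 := by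
  have h1 : Real.smoothTransition =ᶠ[nhds x] fun _ => (0 : ℝ) := by
    filter_upwards [Iio_mem_nhds h] with y hy
    exact Real.smoothTransition.zero_of_nonpos (le_of_lt hy)
  rw [h1.deriv_eq, deriv_const]

lemma deriv_st_gt {x : ℝ} (h : 1 < x) : deriv Real.smoothTransition x = 0 := by
  have h1 : Real.smoothTransition =ᶠ[nhds x] fun _ => (1 : ℝ) := by
    filter_upwards [Ioi_mem_nhds h] with y hy
    exact Real.smoothTransition.one_of_one_le (le_of_lt hy)
  rw [h1.deriv_eq, deriv_const]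

lemma st_bdd : ∃ M : ℝ, 0 ≤ M ∧ ∀ x, |deriv Real.smoothTransition x| ≤ M := by
  have hc : Continuous (deriv Real.smoothTransition) :=
    (Real.smoothTransition.contDiff (n := 1)).continuous_deriv le_rfl
  have hs : HasCompactSupport (deriv Real.smoothTransition) := by
    refine HasCompactSupport.intro (isCompact_Icc (a := (0 : ℝ)) (b := 1)) fun x hx => ?_
    rcases lt_or_ge x 0 with h | h
    · exact deriv_st_lt h
    · refine deriv_st_gt ?_
      by_contra h2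
      exact hx ⟨h, by linarith⟩
  obtain ⟨M, hM⟩ := hc.bounded_above_of_compact_support hs
  exact ⟨M, (norm_nonneg _).trans (hM 0), fun x => hM x⟩

lemma deriv_fR (R ρ : ℝ) : deriv (fR R) ρ = -(1 / 2) * Real.exp (-ρ / 2) *
    Real.smoothTransition (R - ρ) - Real.exp (-ρ / 2) * deriv Real.smoothTransition (R - ρ) := by
  have h1 : HasDerivAt (fun ρ : ℝ => Real.exp (-ρ / 2)) (Real.exp (-ρ / 2) * (-1 / 2)) ρ :=
    ((hasDerivAt_id ρ).neg.div_const 2).exp
  have h2 : HasDerivAt Real.smoothTransition (deriv Real.smoothTransition (R - ρ)) (R - ρ) :=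
    ((Real.smoothTransition.contDiff (n := 1)).differentiable one_ne_zero _).hasDerivAt
  have h3 : HasDerivAt (fun ρ : ℝ => Real.smoothTransition (R - ρ))
      (-deriv Real.smoothTransition (R - ρ)) ρ := h2.comp_const_sub R ρ
  have h4 : HasDerivAt (fR R) _ ρ := h1.mul h3
  rw [h4.deriv]
  ring

lemma contDiff_fR (R : ℝ) : ContDiff ℝ 1 (fR R) := by
  unfold fR
  exact (Real.contDiff_exp.comp (contDiff_id.neg.div_const 2)).mul
    (Real.smoothTransition.contDiff.comp (contDiff_const.sub contDiff_id))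

lemma fR_nonneg (R ρ : ℝ) : 0 ≤ fR R ρ :=
  mul_nonneg (Real.exp_pos _).le (Real.smoothTransition.nonneg _)

lemma fR_le (R ρ : ℝ) : fR R ρ ≤ Real.exp (-ρ / 2) :=
  mul_le_of_le_one_right (Real.exp_pos _).le (Real.smoothTransition.le_one _)

lemma fR_eq {R ρ : ℝ} (h : 1 ≤ R - ρ) : fR R ρ = Real.exp (-ρ / 2) := by
  unfold fR
  rw [Real.smoothTransition.one_of_one_le h, mul_one]

theorem g1 : T_G1a → T_G1b → T_G1 := by
  intro hGa hGb n p C hn hp1 hpQ hSob g hg hgc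
  obtain ⟨q, hq⟩ : ∃ q : ℝ, q = (2 * (n : ℝ) + 2) * p / (2 * n + 2 - p) := ⟨_, rfl⟩
  have hn1 : (1 : ℝ) ≤ n := by exact_mod_cast hn
  have hQp : 0 < 2 * (n : ℝ) + 2 - p := by linarith
  have hp0 : 0 < p := by linarith
  have hq0 : 0 < q := by rw [hq]; positivity
  have hg1 : ContDiff ℝ 1 g := hg.of_le (by exact_mod_cast le_top)
  have hgcont : Continuous g := hg.continuous
  have hg'cont : Continuous (deriv g) := hg1.continuous_deriv le_rfl
  have hρc : Continuous (fun z : H n => ‖z.1‖ ^ 2 + ‖z.2.1‖ ^ 2) := by fun_prop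
  -- the function in the limit
  have hfc : ∀ R : ℝ, Continuous (fR R) := fun R => (contDiff_fR R).continuous
  have hucont : ∀ k : ℕ, Continuous (fun z : H n => fR k (‖z.1‖ ^ 2 + ‖z.2.1‖ ^ 2) * g z.2.2) :=
    fun k => (hGb n k g hg hgc).1.continuous
  have hT1 : Filter.Tendsto (fun k : ℕ => ∫ z : H n,
      ‖fR k (‖z.1‖ ^ 2 + ‖z.2.1‖ ^ 2) * g z.2.2‖ ^ q) Filter.atTop
      (nhds (∫ z : H n, (Real.exp (-(‖z.1‖ ^ 2 + ‖z.2.1‖ ^ 2) / 2) * |g z.2.2|) ^ q)) := by
    refine tendsto_integral_of_dominated_convergence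
      (fun z : H n => (Real.exp (-(‖z.1‖ ^ 2 + ‖z.2.1‖ ^ 2) / 2) * |g z.2.2|) ^ q) ?_ ?_ ?_ ?_
    · intro k
      exact ((hucont k).norm.rpow_const fun _ => Or.inr hq0.le).aestronglyMeasurable
    · have h1 := dom n (q / 2) (by positivity) (fun t => |g t| ^ q)
        (hgcont.abs.rpow_const fun _ => Or.inr hq0.le) (by
          refine HasCompactSupport.intro hgc fun x hx => ?_
          rw [image_eq_zero_of_notMem_tsupport hx, abs_zero]
          exact Real.zero_rpow hq0.ne')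
      refine h1.congr (Filter.Eventually.of_forall fun z => ?_)
      simp only
      rw [Real.mul_rpow (Real.exp_pos _).le (abs_nonneg _), ← Real.exp_mul]
      congr 2
      ring
    · intro k
      refine Filter.Eventually.of_forall fun z => ?_
      rw [Real.norm_of_nonneg (by positivity), norm_mul, Real.norm_eq_abs, Real.norm_eq_abs,
        abs_of_nonneg (fR_nonneg _ _)]
      refine Real.rpow_le_rpow (mul_nonneg (fR_nonneg _ _) (abs_nonneg _)) ?_ hq0.le
      exact mul_le_mul_of_nonneg_right (fR_le _ _) (abs_nonneg _)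
    · refine Filter.Eventually.of_forall fun z => ?_
      refine tendsto_const_nhds.congr' ?_
      filter_upwards [Filter.eventually_ge_atTop ⌈‖z.1‖ ^ 2 + ‖z.2.1‖ ^ 2 + 1⌉₊] with k hk
      have h1 : ‖z.1‖ ^ 2 + ‖z.2.1‖ ^ 2 + 1 ≤ k := Nat.ceil_le.1 hk
      rw [fR_eq (by linarith), norm_mul, Real.norm_eq_abs, Real.norm_eq_abs,
        abs_of_nonneg (Real.exp_pos _).le]
  -- the gradients
  obtain ⟨M, hM0, hM⟩ := st_bdd
  have hgrad : ∀ (k : ℕ) (z : H n),
      grad (fun z : H n => fR k (‖z.1‖ ^ 2 + ‖z.2.1‖ ^ 2) * g z.2.2) z =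
      2 * Real.sqrt ((‖z.1‖ ^ 2 + ‖z.2.1‖ ^ 2) *
        (deriv (fR k) (‖z.1‖ ^ 2 + ‖z.2.1‖ ^ 2) ^ 2 * g z.2.2 ^ 2 +
          fR k (‖z.1‖ ^ 2 + ‖z.2.1‖ ^ 2) ^ 2 * deriv g z.2.2 ^ 2)) :=
    fun k z => hGa n (fR k) g z (contDiff_fR k) hg1
  have hT2 : Filter.Tendsto (fun k : ℕ => ∫ z : H n,
      grad (fun z : H n => fR k (‖z.1‖ ^ 2 + ‖z.2.1‖ ^ 2) * g z.2.2) z ^ p) Filter.atTop
      (nhds (∫ z : H n, (Real.exp (-(‖z.1‖ ^ 2 + ‖z.2.1‖ ^ 2) / 2) *
        Real.sqrt ((‖z.1‖ ^ 2 + ‖z.2.1‖ ^ 2) * (g z.2.2 ^ 2 + 4 * deriv g z.2.2 ^ 2))) ^ p)) := by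
    refine tendsto_integral_of_dominated_convergence
      (fun z : H n => (8 * (1 + M)) ^ p * (Real.exp (-(p / 4) * (‖z.1‖ ^ 2 + ‖z.2.1‖ ^ 2)) *
        (Real.sqrt (g z.2.2 ^ 2 + deriv g z.2.2 ^ 2)) ^ p)) ?_ ?_ ?_ ?_
    · intro k
      have h1 := continuous_grad ((hGb n k g hg hgc).1.of_le (by exact_mod_cast le_top) :
        ContDiff ℝ 1 _)
      exact (h1.rpow_const fun _ => Or.inr hp0.le).aestronglyMeasurable
    · refine Integrable.const_mul ?_ _
      refine dom n (p / 4) (by positivity)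
        (fun t => (Real.sqrt (g t ^ 2 + deriv g t ^ 2)) ^ p) ?_ ?_
      · exact (Real.continuous_sqrt.comp ((hgcont.pow 2).add (hg'cont.pow 2))).rpow_const
          fun _ => Or.inr hp0.le
      · refine HasCompactSupport.intro hgc fun x hx => ?_
        have h2 : deriv g x = 0 := by
          have h3 : x ∉ tsupport (deriv g) := fun h => hx (tsupport_deriv_subset h)
          exact image_eq_zero_of_notMem_tsupport h3
        rw [image_eq_zero_of_notMem_tsupport hx, h2]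
        simp only [ne_eq, OfNat.ofNat_ne_zero, not_false_eq_true, zero_pow, add_zero,
          Real.sqrt_zero]
        exact Real.zero_rpow hp0.ne'
    · intro k
      refine Filter.Eventually.of_forall fun z => ?_
      rw [Real.norm_of_nonneg (Real.rpow_nonneg (grad_nonneg _ _) _), hgrad]
      obtain ⟨ρ, hρ⟩ : ∃ ρ : ℝ, ρ = ‖z.1‖ ^ 2 + ‖z.2.1‖ ^ 2 := ⟨_, rfl⟩
      have hρ0 : 0 ≤ ρ := by rw [hρ]; positivity
      rw [← hρ]
      obtain ⟨s, hs⟩ : ∃ s : ℝ, s = Real.sqrt (g z.2.2 ^ 2 + deriv g z.2.2 ^ 2) := ⟨_, rfl⟩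
      have hs0 : 0 ≤ s := by rw [hs]; positivity
      have hs2 : s ^ 2 = g z.2.2 ^ 2 + deriv g z.2.2 ^ 2 := by
        rw [hs]
        exact Real.sq_sqrt (by positivity)
      rw [← hs]
      have e1 : (8 * (1 + M)) ^ p * (Real.exp (-(p / 4) * ρ) * s ^ p) =
          (2 * (4 * (1 + M) * Real.exp (-ρ / 4) * s)) ^ p := by
        have h1 : 2 * (4 * (1 + M) * Real.exp (-ρ / 4) * s) =
          (8 * (1 + M)) * (Real.exp (-ρ / 4) * s) := by ring
        have h2 : (0 : ℝ) ≤ 8 * (1 + M) := by positivity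
        have h3 : 0 ≤ Real.exp (-ρ / 4) * s := by positivity
        have h4 : Real.exp (-(p / 4) * ρ) = Real.exp (-ρ / 4) ^ p := by
          rw [← Real.exp_mul]
          congr 1
          ring
        rw [h1, Real.mul_rpow h2 h3, Real.mul_rpow (Real.exp_pos _).le hs0, h4]
      rw [e1]
      refine Real.rpow_le_rpow (by positivity) ?_ hp0.le
      refine mul_le_mul_of_nonneg_left ?_ (by norm_num)
      refine Real.sqrt_le_iff.2 ⟨by positivity, ?_⟩
      -- the squares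
      obtain ⟨E, hE⟩ : ∃ E : ℝ, E = Real.exp (-ρ / 2) := ⟨_, rfl⟩
      have hE0 : 0 < E := by rw [hE]; exact Real.exp_pos _
      have hE4 : Real.exp (-ρ / 4) ^ 2 = E := by
        rw [hE, ← Real.exp_nat_mul]
        congr 1
        push_cast
        ring
      have hρE : ρ * E ≤ 16 := by
        have h1 : ρ / 2 + 1 ≤ Real.exp (ρ / 2) := Real.add_one_le_exp _
        have h2 : Real.exp (ρ / 2) * E = 1 := by
          rw [hE, ← Real.exp_add]
          have : ρ / 2 + -ρ / 2 = 0 := by ring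
          rw [this, Real.exp_zero]
        nlinarith
      have hd : |deriv (fR k) ρ| ≤ (1 + M) * E := by
        rw [deriv_fR, ← hE]
        have h1 := hM ((k : ℝ) - ρ)
        have h2 := Real.smoothTransition.nonneg ((k : ℝ) - ρ)
        have h3 := Real.smoothTransition.le_one ((k : ℝ) - ρ)
        rw [abs_le] at h1 ⊢
        constructor <;> nlinarith
      have hf1 : fR k ρ ≤ E := by rw [hE]; exact fR_le _ _
      have hf0 : 0 ≤ fR k ρ := fR_nonneg _ _
      have hd2 : deriv (fR k) ρ ^ 2 ≤ ((1 + M) * E) ^ 2 := by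
        rw [← sq_abs]
        exact pow_le_pow_left₀ (abs_nonneg _) hd 2
      have hf2 : fR k ρ ^ 2 ≤ ((1 + M) * E) ^ 2 := by
        refine pow_le_pow_left₀ hf0 (hf1.trans ?_) 2
        nlinarith
      calc ρ * (deriv (fR k) ρ ^ 2 * g z.2.2 ^ 2 + fR k ρ ^ 2 * deriv g z.2.2 ^ 2)
          ≤ ρ * (((1 + M) * E) ^ 2 * g z.2.2 ^ 2 + ((1 + M) * E) ^ 2 * deriv g z.2.2 ^ 2) := by
            gcongr
        _ = (ρ * E) * ((1 + M) ^ 2 * E * s ^ 2) := by rw [hs2]; ring
        _ ≤ 16 * ((1 + M) ^ 2 * E * s ^ 2) := by gcongr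
        _ = (4 * (1 + M) * Real.exp (-ρ / 4) * s) ^ 2 := by rw [← hE4]; ring
    · refine Filter.Eventually.of_forall fun z => ?_
      refine tendsto_const_nhds.congr' ?_
      filter_upwards [Filter.eventually_ge_atTop ⌈‖z.1‖ ^ 2 + ‖z.2.1‖ ^ 2 + 2⌉₊] with k hk
      have h1 : ‖z.1‖ ^ 2 + ‖z.2.1‖ ^ 2 + 2 ≤ k := Nat.ceil_le.1 hk
      rw [hgrad]
      obtain ⟨ρ, hρ⟩ : ∃ ρ : ℝ, ρ = ‖z.1‖ ^ 2 + ‖z.2.1‖ ^ 2 := ⟨_, rfl⟩
      have hρ0 : 0 ≤ ρ := by rw [hρ]; positivity
      rw [← hρ] at h1 ⊢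
      rw [deriv_fR, fR_eq (by linarith), Real.smoothTransition.one_of_one_le (by linarith),
        deriv_st_gt (by linarith)]
      congr 1
      have hE0 : 0 ≤ Real.exp (-ρ / 2) := (Real.exp_pos _).le
      have e2 : ∀ y : ℝ, 0 ≤ y → Real.exp (-ρ / 2) * Real.sqrt y =
          Real.sqrt (Real.exp (-ρ / 2) ^ 2 * y) := by
        intro y hy
        rw [Real.sqrt_mul (by positivity), Real.sqrt_sq hE0]
      have e3 : ∀ y : ℝ, 2 * Real.sqrt y = Real.sqrt (4 * y) := by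
        intro y
        rw [Real.sqrt_mul (by norm_num), show (4 : ℝ) = 2 ^ 2 by norm_num,
          Real.sqrt_sq (by norm_num)]
      rw [e2 _ (by positivity), e3]
      congr 1
      ring
  -- conclusion
  have hk : ∀ k : ℕ, (∫ z : H n, ‖fR k (‖z.1‖ ^ 2 + ‖z.2.1‖ ^ 2) * g z.2.2‖ ^ q) ^
      ((2 * (n : ℝ) + 2 - p) / (2 * n + 2)) ≤ C * ∫ z : H n,
        grad (fun z : H n => fR k (‖z.1‖ ^ 2 + ‖z.2.1‖ ^ 2) * g z.2.2) z ^ p := by
    intro k
    rw [hq]
    exact hSob _ (hGb n k g hg hgc).1 (hGb n k g hg hgc).2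
  rw [← hq]
  exact le_of_tendsto_of_tendsto' (hT1.rpow_const (Or.inr (by positivity)))
    (hT2.const_mul C) hk

end Pool.Agent.H4.HS.G1
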